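import Pool.Agent.H6.NE.Stm3
import Pool.Agent.H2.KL.Stm

/-!
# NE: part DUA (duality for a normal abelian subgroup), from `H2.KL.S_DUAL`
-/

set_option autoImplicit false

open Finset

namespace H37.NE

open H6.NE

section

variable {p N : ℕ} {G : Type} [Group G] {A : Subgroup G}

/-- the additive group of an abelian subgroup -/
@[reducible] def addA (hA : ∀ a ∈ A, ∀ b ∈ A, a * b = b * a) : AddCommGroup (Additive A) :=
  { (inferInstance : AddGroup (Additive A)) with
    add_comm := fun a b => by
      apply Additive.toMul.injective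
      apply Subtype.ext
      exact hA _ (Additive.toMul a).2 _ (Additive.toMul b).2 }

theorem dr_apply [A.Normal] (g : G) (x : Dl p N A) (a : A) :
    dr p N A g x (Additive.ofMul a) =
      x (Additive.ofMul (MulAut.conjNormal (H := A) g⁻¹ a)) := rfl

theorem x_mul (x : Dl p N A) (a b : A) :
    x (Additive.ofMul (a * b)) = x (Additive.ofMul a) + x (Additive.ofMul b) := by
  rw [ofMul_mul, map_add]

theorem x_inv (x : Dl p N A) (a : A) :
    x (Additive.ofMul a⁻¹) = - x (Additive.ofMul a) := by
  rw [ofMul_inv, map_neg]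

theorem cm_mem [hn : A.Normal] {b : G} (hb : b ∈ A) (k : G) : cm b k ∈ A := by
  unfold cm
  have h1 := hn.conj_mem _ (A.inv_mem hb) k
  have h2 := A.mul_mem hb h1
  convert h2 using 1
  group

theorem x_cm [hn : A.Normal] (x : Dl p N A) {b : G} (hb : b ∈ A) (k : G) :
    x (Additive.ofMul ⟨cm b k, cm_mem hb k⟩) =
      (-(dr p N A k⁻¹ x - x)) (Additive.ofMul ⟨b, hb⟩) := by
  have h1 : (⟨cm b k, cm_mem hb k⟩ : A) =
      ⟨b, hb⟩ * (MulAut.conjNormal (H := A) k ⟨b, hb⟩)⁻¹ := by
    apply Subtype.ext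
    rw [Subgroup.coe_mul, Subgroup.coe_inv, MulAut.conjNormal_apply]
    unfold cm
    group
  rw [h1, x_mul, x_inv, AddMonoidHom.neg_apply, AddMonoidHom.sub_apply, dr_apply, inv_inv]
  abel

theorem fold_mem [hn : A.Normal] (l : List G) {a : G} (ha : a ∈ A) :
    l.foldl (fun (u g : G) => cm u g) a ∈ A := by
  induction l generalizing a with
  | nil => exact ha
  | cons k l ih => exact ih (cm_mem ha k)

theorem fold_dual [hn : A.Normal] (K : Subgroup G) (l : List G) (hl : ∀ k ∈ l, k ∈ K) :
    ∀ (m : ℕ) (x : Dl p N A), x ∈ JV (dr p N A) K m → ∀ (a : G) (ha : a ∈ A),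
      ∃ y ∈ JV (dr p N A) K (m + l.length),
        x (Additive.ofMul ⟨l.foldl (fun (u g : G) => cm u g) a, fold_mem l ha⟩) =
          y (Additive.ofMul ⟨a, ha⟩) := by
  induction l using List.reverseRecOn with
  | nil =>
    intro m x hx a ha
    exact ⟨x, hx, rfl⟩
  | append_singleton l k ih =>
    intro m x hx a ha
    have hk : k ∈ K := hl k (by simp)
    have hx' : -(dr p N A k⁻¹ x - x) ∈ JV (dr p N A) K (m + 1) := by
      apply Submodule.neg_mem
      exact Submodule.subset_span ⟨k⁻¹, K.inv_mem hk, x, hx, rfl⟩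
    obtain ⟨y, hy, hy'⟩ := ih (fun k hk => hl k (by simp [hk])) (m + 1) _ hx' a ha
    refine ⟨y, ?_, ?_⟩
    · have : m + (l ++ [k]).length = m + 1 + l.length := by
        rw [List.length_append, List.length_singleton]; omega
      rw [this]
      exact hy
    · rw [← hy', ← x_cm x (fold_mem l ha) k]
      congr 2
      apply Subtype.ext
      simp only [List.foldl_append, List.foldl_cons, List.foldl_nil]

end

theorem t_DUA (hD : H2.KL.S_DUAL) : S_DUA := by
  classical
  intro p N hp hN G _ _ A _ hA hcard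
  have hnz : NeZero (p ^ N) := ⟨(pow_pos hp.out.pos _).ne'⟩
  let iA : AddCommGroup (Additive A) := addA hA
  have hfinA : Finite (Additive A) := inferInstanceAs (Finite A)
  have hq : ∀ x : Additive A, (p ^ N) • x = 0 := by
    intro x
    have h1 : (Additive.toMul x) ^ (p ^ N) = 1 := by
      obtain ⟨c, hc⟩ := hcard
      rw [hc, pow_mul, pow_card_eq_one', one_pow]
    exact congrArg Additive.ofMul h1
  have hsep : ∀ a : Additive A, a ≠ 0 → ∃ x : Dl p N A, x a ≠ 0 :=
    (hD (p ^ N) (Additive A) hq).2.1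
  have hfin : Finite (Dl p N A) := DFunLike.finite _
  have hsep' : ∀ a b : A, (∀ x : Dl p N A, x (Additive.ofMul a) = x (Additive.ofMul b)) →
      a = b := by
    intro a b h
    by_contra hne
    have h1 : (Additive.ofMul (a * b⁻¹) : Additive A) ≠ 0 := by
      intro hc
      apply hne
      have h2 : a * b⁻¹ = 1 := hc
      exact mul_inv_eq_one.1 h2
    obtain ⟨x, hx⟩ := hsep _ h1
    apply hx
    rw [x_mul, x_inv, h x, add_neg_cancel]
  refine ⟨hfin, hsep, ?_, ?_, ?_⟩
  · intro g hg a ha
    have h1 : MulAut.conjNormal (H := A) g⁻¹ ⟨a, ha⟩ = ⟨a, ha⟩ := by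
      apply hsep'
      intro x
      rw [← dr_apply, hg x]
    have h2 := congrArg Subtype.val h1
    rw [MulAut.conjNormal_apply] at h2
    simp only [inv_inv] at h2
    have h3 : a * g = g * a := by
      calc a * g = g * (g⁻¹ * a * g) := by group
        _ = g * a := by rw [h2]
    exact h3.symm
  · intro 𝔎 _ _ _ j hj x
    have hk : ∀ y : 𝔎, (p ^ N) • y = 0 := by
      intro y
      rw [← Nat.cast_smul_eq_nsmul (ZMod (p ^ N)), ZMod.natCast_self, zero_smul]
    let e : Additive A ≃+ j.range := AddMonoidHom.ofInjective hj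
    obtain ⟨g, hg⟩ := (hD (p ^ N) 𝔎 hk).2.2 j.range (x.comp e.symm.toAddMonoidHom)
    refine ⟨g.toZModLinearMap (p ^ N), ?_⟩
    intro a
    have h1 := hg (e a)
    have h2 : ((e a : j.range) : 𝔎) = j a := rfl
    rw [h2] at h1
    change g (j a) = x a
    rw [h1]
    change x (e.symm (e a)) = x a
    rw [AddEquiv.symm_apply_apply]
  · intro K e hJ a ha k hk
    have h1 : (⟨(List.ofFn k).foldl (fun (u g : G) => cm u g) a, fold_mem _ ha⟩ : A) = 1 := by
      apply hsep'
      intro x
      have hl : ∀ g ∈ List.ofFn k, g ∈ K := by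
        intro g hg
        rw [List.mem_ofFn] at hg
        obtain ⟨i, rfl⟩ := hg
        exact hk i
      obtain ⟨y, hy, hy'⟩ := fold_dual (p := p) (N := N) K (List.ofFn k) hl 0 x
        (Submodule.mem_top) a ha
      rw [List.length_ofFn, zero_add, hJ, Submodule.mem_bot] at hy
      rw [hy', hy, ofMul_one, map_zero]
      rfl
    exact congrArg Subtype.val h1

end H37.NE
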