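import Pool.Agent.H6.NE.Stm1

/-!
# NE: part MSL
-/

set_option autoImplicit false

open Finset

namespace H37.NE

open H6.NE

section

variable {p N : ℕ} {k V W : Type} [AddCommGroup k]
  [Module (ZMod (p ^ N)) k] [AddCommGroup V] [Module (ZMod (p ^ N)) V] [AddCommGroup W]
  [Module (ZMod (p ^ N)) W]

/-- the values of an element of `KP` -/
theorem KP_value (b : k →ₗ[ZMod (p ^ N)] V →ₗ[ZMod (p ^ N)] W) (x u : V) (n : ℕ) {y : ℕ → k}
    (hy : y ∈ KP b x u n) (s : ZMod (p ^ N)) :
    ∑ j ∈ range n, s ^ j • y j ∈ Sv b (x + s • u) := by
  obtain ⟨h1, h2, h3⟩ := hy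
  rw [mem_Sv]
  -- partial sums
  have key : ∀ m : ℕ, b (∑ j ∈ range (m + 1), s ^ j • y j) (x + s • u) =
      s ^ (m + 1) • b (y m) u := by
    intro m
    induction m with
    | zero =>
      simp only [zero_add, Finset.sum_range_one, pow_zero, one_smul, map_add, map_smul, h2,
        pow_one]
    | succ m ih =>
      have e1 : b (s ^ (m + 1) • y (m + 1)) (x + s • u) =
          s ^ (m + 1) • b (y (m + 1)) x + s ^ (m + 1 + 1) • b (y (m + 1)) u := by
        rw [map_smul b, LinearMap.smul_apply, map_add (b (y (m + 1))), map_smul (b (y (m + 1))),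
          smul_add, smul_smul, ← pow_succ]
      have e2 : s ^ (m + 1) • b (y m) u + s ^ (m + 1) • b (y (m + 1)) x = 0 := by
        rw [← smul_add, add_comm (b (y m) u), h3 m, smul_zero]
      rw [Finset.sum_range_succ, map_add b, LinearMap.add_apply, ih, e1, ← add_assoc, e2, zero_add]
  cases n with
  | zero => simp
  | succ m =>
    have h4 := h3 m
    rw [h1 (m + 1) le_rfl, map_zero, LinearMap.zero_apply, zero_add] at h4
    rw [key m, h4, smul_zero]

end

theorem t_MSL (hLEN : S_LEN) (hVDM : S_VDM) : S_MSL := by
  classical
  intro p N hp k V W k' _ _ _ _ _ _ _ _ _ _ b res x u n T0 hT0 hn hres Q hQ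
  -- finiteness
  have hinj : Function.Injective (fun (y : Q) (i : Fin n) => y.1 i) := by
    intro y z h
    apply Subtype.ext
    funext j
    by_cases hj : j < n
    · exact congrFun h ⟨j, hj⟩
    · rw [((hQ y.1).1 y.2).1 j (not_lt.1 hj), ((hQ z.1).1 z.2).1 j (not_lt.1 hj)]
  have hfin : Finite Q := Finite.of_injective _ hinj
  refine ⟨hfin, ?_⟩
  -- the map
  let F : Q →ₗ[ZMod (p ^ N)] KP b x u n :=
    { toFun := fun y => ⟨fun j => res (y.1 j), ((hQ y.1).1 y.2).2⟩
      map_add' := by
        intro y z
        apply Subtype.ext
        funext j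
        change res (y.1 j + z.1 j) = res (y.1 j) + res (z.1 j)
        rw [map_add]
      map_smul' := by
        intro c y
        apply Subtype.ext
        funext j
        change res (c • y.1 j) = c • res (y.1 j)
        rw [map_smul] }
  have hF : ∀ (y : Q) (j : ℕ), (F y).1 j = res (y.1 j) := fun y j => rfl
  have hsurj : LinearMap.range F = ⊤ := by
    rw [LinearMap.range_eq_top]
    intro z
    have h1 : ∀ j < n, z.1 j ∈ LinearMap.range res :=
      hVDM p N k (LinearMap.range res) n z.1 T0 hT0 hn
        (fun s hs => hres s hs (KP_value b x u n z.2 s))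
    choose! w hw using h1
    let y : ℕ → k' := fun j => if j < n then w j else 0
    have hy : ∀ j, res (y j) = z.1 j := by
      intro j
      by_cases hj : j < n
      · simp only [y, if_pos hj]; exact hw j hj
      · simp only [y, if_neg hj]
        rw [map_zero, z.2.1 j (not_lt.1 hj)]
    have hyQ : y ∈ Q := by
      rw [hQ]
      refine ⟨fun j hj => by simp only [y, if_neg (not_lt.2 hj)], ?_⟩
      have : (fun j => res (y j)) = z.1 := funext hy
      rw [this]
      exact z.2
    refine ⟨⟨y, hyQ⟩, ?_⟩
    apply Subtype.ext
    funext j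
    exact hy j
  have hker : Nat.card (LinearMap.ker F) = Nat.card (Fin n → LinearMap.ker res) := by
    apply Nat.card_congr
    exact {
      toFun := fun y i => ⟨y.1.1 i, by
        have h1 : F y.1 = 0 := y.2
        have h2 := congrFun (congrArg Subtype.val h1) (i : ℕ)
        rw [LinearMap.mem_ker]
        exact h2⟩
      invFun := fun w => ⟨⟨fun j => if hj : j < n then (w ⟨j, hj⟩).1 else 0, by
          rw [hQ]
          refine ⟨fun j hj => by simp only [dif_neg (not_lt.2 hj)], ?_⟩
          have : (fun j => res (if hj : j < n then (w ⟨j, hj⟩).1 else 0)) = 0 := by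
            funext j
            by_cases hj : j < n
            · simp only [dif_pos hj]
              exact (w ⟨j, hj⟩).2
            · simp only [dif_neg hj, map_zero, Pi.zero_apply]
          rw [this]
          exact zero_mem _⟩, by
          rw [LinearMap.mem_ker]
          apply Subtype.ext
          funext j
          rw [hF]
          by_cases hj : j < n
          · simp only [dif_pos hj]
            exact (w ⟨j, hj⟩).2
          · simp only [dif_neg hj, map_zero]
            rfl⟩
      left_inv := by
        intro y
        apply Subtype.ext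
        apply Subtype.ext
        funext j
        by_cases hj : j < n
        · simp only [dif_pos hj]
        · simp only [dif_neg hj]
          exact (((hQ y.1.1).1 y.1.2).1 j (not_lt.1 hj)).symm
      right_inv := by
        intro w
        funext i
        apply Subtype.ext
        simp only [Fin.is_lt, dif_pos] }
  obtain ⟨l1, _, _, _, _, _, l7, _⟩ := hLEN p N
  have h1 := l1 Q (KP b x u n) F
  have h2 : ln p (LinearMap.ker F) = n * ln p (LinearMap.ker res) := by
    have h3 := l7 (LinearMap.ker res) (Fin n)
    rw [Fintype.card_fin] at h3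
    rw [← h3]
    unfold ln
    rw [hker]
  have h3 : ln p (LinearMap.range F) = ln p (KP b x u n) := by
    rw [hsurj]
    unfold ln
    rw [Nat.card_congr (Submodule.topEquiv (R := ZMod (p ^ N)) (M := KP b x u n)).toEquiv]
  rw [h1, h2, h3, add_comm]

end H37.NE
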