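import Pool.Agent.H6.NE.Stm2

/-!
# NE: part RES (functoriality of the logarithms)
-/

set_option autoImplicit false

open Finset

namespace H37.NE

open H6.NE

section

variable {p N : ℕ} {G V V' : Type} [Group G] [AddCommGroup V] [Module (ZMod (p ^ N)) V]
  [AddCommGroup V'] [Module (ZMod (p ^ N)) V'] {ρ : Representation (ZMod (p ^ N)) G V}
  {ρ' : Representation (ZMod (p ^ N)) G V'} {π : V' →ₗ[ZMod (p ^ N)] V}

theorem JV_map (hπ : Function.Surjective π) (he : ∀ g v, π (ρ' g v) = ρ g (π v))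
    (K : Subgroup G) (j : ℕ) : JV ρ K j = (JV ρ' K j).map π := by
  induction j with
  | zero =>
    change (⊤ : Submodule (ZMod (p ^ N)) V) = Submodule.map π ⊤
    rw [Submodule.map_top, LinearMap.range_eq_top.2 hπ]
  | succ m ih =>
    change Submodule.span _ {w | ∃ k ∈ K, ∃ v ∈ JV ρ K m, w = ρ k v - v} =
      (Submodule.span _ {w | ∃ k ∈ K, ∃ v ∈ JV ρ' K m, w = ρ' k v - v}).map π
    rw [Submodule.map_span]
    congr 1
    ext w
    constructor
    · rintro ⟨k, hk, v, hv, rfl⟩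
      rw [ih] at hv
      obtain ⟨v', hv', rfl⟩ := hv
      exact ⟨ρ' k v' - v', ⟨k, hk, v', hv', rfl⟩, by rw [map_sub, he]⟩
    · rintro ⟨_, ⟨k, hk, v', hv', rfl⟩, rfl⟩
      refine ⟨k, hk, π v', ?_, by rw [map_sub, he]⟩
      rw [ih]
      exact ⟨v', hv', rfl⟩

/-- the endomorphisms which preserve `ker π` -/
def KD (π : V' →ₗ[ZMod (p ^ N)] V) : Submodule (ZMod (p ^ N)) (Module.End (ZMod (p ^ N)) V') where
  carrier := {y | ∀ v, π v = 0 → π (y v) = 0}
  add_mem' := by
    intro y z hy hz v hv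
    rw [LinearMap.add_apply, map_add, hy v hv, hz v hv, add_zero]
  zero_mem' := by intro v _; simp
  smul_mem' := by
    intro c y hy v hv
    rw [LinearMap.smul_apply, map_smul, hy v hv, smul_zero]

theorem KD_eq {y : Module.End (ZMod (p ^ N)) V'} (hy : y ∈ KD π) {v w : V'} (h : π v = π w) :
    π (y v) = π (y w) := by
  have h1 := hy (v - w) (by rw [map_sub, h, sub_self])
  rw [map_sub, map_sub, sub_eq_zero] at h1
  exact h1

/-- the induced endomorphism -/
noncomputable def bar (hπ : Function.Surjective π) :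
    KD π →ₗ[ZMod (p ^ N)] Module.End (ZMod (p ^ N)) V where
  toFun y :=
    { toFun := fun v => π (y.1 (Function.surjInv hπ v))
      map_add' := by
        intro v w
        rw [← map_add, ← map_add]
        apply KD_eq y.2
        rw [map_add, Function.surjInv_eq hπ, Function.surjInv_eq hπ, Function.surjInv_eq hπ]
      map_smul' := by
        intro c v
        rw [RingHom.id_apply, ← map_smul, ← map_smul]
        apply KD_eq y.2
        rw [map_smul, Function.surjInv_eq hπ, Function.surjInv_eq hπ] }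
  map_add' y z := by
    ext v
    change π ((y.1 + z.1) _) = π (y.1 _) + π (z.1 _)
    rw [LinearMap.add_apply, map_add]
  map_smul' c y := by
    ext v
    change π ((c • y.1) _) = c • π (y.1 _)
    rw [LinearMap.smul_apply, map_smul]

theorem bar_apply (hπ : Function.Surjective π) (y : KD π) (v : V') :
    bar hπ y (π v) = π (y.1 v) := by
  change π (y.1 (Function.surjInv hπ (π v))) = π (y.1 v)
  apply KD_eq y.2
  rw [Function.surjInv_eq hπ]

theorem pow_bar {y : Module.End (ZMod (p ^ N)) V'} {z : Module.End (ZMod (p ^ N)) V}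
    (h : ∀ v, π (y v) = z (π v)) (i : ℕ) (v : V') : π ((y ^ i) v) = (z ^ i) (π v) := by
  induction i generalizing v with
  | zero => simp
  | succ m ih =>
    rw [pow_succ, pow_succ, Module.End.mul_apply, Module.End.mul_apply, ih, h]

theorem ex_bar {y : Module.End (ZMod (p ^ N)) V'} {z : Module.End (ZMod (p ^ N)) V}
    (h : ∀ v, π (y v) = z (π v)) (v : V') : π (ex p N y v) = ex p N z (π v) := by
  unfold ex
  rw [LinearMap.sum_apply, LinearMap.sum_apply, map_sum]
  apply Finset.sum_congr rfl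
  intro i _
  rw [LinearMap.smul_apply, LinearMap.smul_apply, map_smul, pow_bar h]

theorem JE_le_KD (he : ∀ g v, π (ρ' g v) = ρ g (π v)) (K : Subgroup G) :
    JE ρ' K ≤ KD π := by
  unfold JE
  rw [Submodule.span_le]
  rintro _ ⟨k, _, rfl⟩ v hv
  rw [LinearMap.sub_apply, Module.End.one_apply, map_sub, he, hv, map_zero, sub_zero]

theorem bar_JE (hπ : Function.Surjective π) (he : ∀ g v, π (ρ' g v) = ρ g (π v))
    (K : Subgroup G) (y : KD π) (hy : y.1 ∈ JE ρ' K) : bar hπ y ∈ JE ρ K := by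
  have h1 : ∀ z (hz : z ∈ JE ρ' K), bar hπ ⟨z, JE_le_KD he K hz⟩ ∈ JE ρ K := by
    intro z hz
    unfold JE at hz
    induction hz using Submodule.span_induction with
    | mem z hz' =>
      obtain ⟨k, hk, rfl⟩ := hz'
      apply Submodule.subset_span
      refine ⟨k, hk, ?_⟩
      ext v
      obtain ⟨v', rfl⟩ := hπ v
      rw [bar_apply, LinearMap.sub_apply, LinearMap.sub_apply, map_sub, he]
      rfl
    | zero =>
      have : (⟨0, JE_le_KD he K (zero_mem _)⟩ : KD π) = 0 := rfl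
      rw [this, map_zero]
      exact zero_mem _
    | add a b ha hb iha ihb =>
      have : (⟨a + b, JE_le_KD he K (add_mem ha hb)⟩ : KD π) =
        ⟨a, JE_le_KD he K ha⟩ + ⟨b, JE_le_KD he K hb⟩ := rfl
      rw [this, map_add]
      exact add_mem iha ihb
    | smul c a ha iha =>
      have : (⟨c • a, JE_le_KD he K (Submodule.smul_mem _ c ha)⟩ : KD π) =
        c • ⟨a, JE_le_KD he K ha⟩ := rfl
      rw [this, map_smul]
      exact Submodule.smul_mem _ _ iha
  exact h1 y.1 hy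

end

theorem t_RES (hSTG : S_STG) : S_RES := by
  intro p N hp hN h2 G V V' _ _ _ _ _ ρ ρ' π hπ he K hJ
  have hJ' : JV ρ K (p - 1) = ⊥ := by rw [JV_map hπ he, hJ, Submodule.map_bot]
  refine ⟨hJ', ?_⟩
  obtain ⟨_, a2, a3, a4, _, _, _⟩ := hSTG p N hN h2 G V' ρ' K hJ
  obtain ⟨_, b2, b3, b4, _, _, _⟩ := hSTG p N hN h2 G V ρ K hJ'
  have hKD : LG ρ' K ≤ KD π := fun y hy => JE_le_KD he K (a2 y hy).1
  have hex : ∀ (y : Module.End (ZMod (p ^ N)) V') (hy : y ∈ KD π) (k : G), ex p N y = ρ' k →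
      ex p N (bar hπ ⟨y, hy⟩) = ρ k := by
    intro y hy k hk
    ext v
    obtain ⟨v', rfl⟩ := hπ v
    rw [← ex_bar (y := y) (fun v => (bar_apply hπ ⟨y, hy⟩ v).symm), hk, he]
  have hLG : ∀ y (hy : y ∈ LG ρ' K), bar hπ ⟨y, hKD hy⟩ ∈ LG ρ K := by
    intro y hy
    obtain ⟨h1, k, hk, hk'⟩ := a2 y hy
    apply Submodule.subset_span
    refine ⟨bar_JE hπ he K ⟨y, hKD hy⟩ h1, MonoidHom.toHomUnits (ρ : G →* _) k, ?_, ?_⟩
    · exact Subgroup.mem_map.2 ⟨k, hk, rfl⟩
    · rw [hex y (hKD hy) k hk']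
      rfl
  let res : LG ρ' K →ₗ[ZMod (p ^ N)] LG ρ K :=
    LinearMap.codRestrict (LG ρ K) ((bar hπ).comp (Submodule.inclusion hKD))
      (fun y => hLG y.1 y.2)
  have hres : ∀ y : LG ρ' K, ((res y : LG ρ K) : Module.End (ZMod (p ^ N)) V) =
      bar hπ ⟨y.1, hKD y.2⟩ := fun y => rfl
  refine ⟨res, ?_, ?_, ?_⟩
  · intro z
    obtain ⟨_, k, hk, hk'⟩ := b2 z.1 z.2
    obtain ⟨y, hy, hy'⟩ := a3 k hk
    refine ⟨⟨y, hy⟩, ?_⟩
    apply Subtype.ext
    apply b4 _ (res ⟨y, hy⟩).2 _ z.2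
    rw [hres, hex y (hKD hy) k hy', hk']
  · intro y v
    rw [hres, bar_apply]
  · intro y k _ hy
    rw [hres]
    exact hex y.1 (hKD y.2) k hy

end H37.NE
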